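import Mathlib
import Pool.Agent.Y329.CG.Stm

/-!
# Entire functions with bounded coefficients
-/

set_option autoImplicit false

open Set Filter Topology MeasureTheory

namespace Pool.Agent.Y930.CG

open Pool.Agent.Y329.CG

theorem hasSum_exp_abs (x : ℝ) : HasSum (fun n : ℕ => |x| ^ n / (n.factorial : ℝ)) (Real.exp |x|) := by
  rw [Real.exp_eq_exp_ℝ]
  exact NormedSpace.expSeries_div_hasSum_exp |x|

theorem term_le {a : ℕ → ℝ} (ha : ∀ n, |a n| ≤ 1) (x : ℝ) (n : ℕ) :
    ‖a n * ((n.factorial : ℝ)⁻¹ * x ^ n)‖ ≤ |x| ^ n / (n.factorial : ℝ) := by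
  rw [Real.norm_eq_abs, abs_mul, abs_mul, abs_pow, abs_of_nonneg (by positivity : (0:ℝ) ≤ (n.factorial : ℝ)⁻¹)]
  have h : 0 ≤ (n.factorial : ℝ)⁻¹ * |x| ^ n := by positivity
  calc |a n| * ((n.factorial : ℝ)⁻¹ * |x| ^ n) ≤ 1 * ((n.factorial : ℝ)⁻¹ * |x| ^ n) :=
        mul_le_mul_of_nonneg_right (ha n) h
    _ = |x| ^ n / (n.factorial : ℝ) := by rw [one_mul, div_eq_inv_mul]

theorem summable_term {a : ℕ → ℝ} (ha : ∀ n, |a n| ≤ 1) (x : ℝ) :
    Summable (fun n : ℕ => a n * ((n.factorial : ℝ)⁻¹ * x ^ n)) :=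
  Summable.of_norm_bounded (hasSum_exp_abs x).summable (term_le ha x)

theorem PS_le {a : ℕ → ℝ} (ha : ∀ n, |a n| ≤ 1) (x : ℝ) : |PS a x| ≤ Real.exp |x| := by
  unfold PS
  rw [← Real.norm_eq_abs]
  exact tsum_of_norm_bounded (hasSum_exp_abs x) (term_le ha x)

theorem deriv_PS {a : ℕ → ℝ} (ha : ∀ n, |a n| ≤ 1) (x : ℝ) :
    HasDerivAt (PS a) (PS (fun n => a (n + 1)) x) x := by
  have ha' : ∀ n, |a (n + 1)| ≤ 1 := fun n => ha (n + 1)
  set R : ℝ := |x| + 1 with hR
  have hR0 : 0 ≤ R := by positivity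
  set u : ℕ → ℝ := fun n => (n.factorial : ℝ)⁻¹ * (n * R ^ (n - 1)) with hu
  have hus : Summable u := by
    rw [← summable_nat_add_iff 1]
    refine (hasSum_exp_abs R).summable.congr fun n => ?_
    rw [hu]
    simp only [Nat.add_sub_cancel]
    rw [abs_of_nonneg hR0, Nat.factorial_succ]
    push_cast
    field_simp
  have h := hasDerivAt_tsum_of_isPreconnected (𝕜 := ℝ)
    (g := fun (n : ℕ) (y : ℝ) => a n * ((n.factorial : ℝ)⁻¹ * y ^ n))
    (g' := fun (n : ℕ) (y : ℝ) => a n * ((n.factorial : ℝ)⁻¹ * (n * y ^ (n - 1))))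
    (t := Metric.ball (0 : ℝ) R) (y₀ := x) (y := x) hus Metric.isOpen_ball
    (convex_ball (0 : ℝ) R).isPreconnected
    (fun n y _ => by
      have h1 := (hasDerivAt_pow n y)
      exact ((h1.const_mul _).const_mul _))
    (fun n y hy => by
      rw [mem_ball_zero_iff] at hy
      rw [Real.norm_eq_abs, abs_mul, abs_mul, abs_mul, abs_pow,
        abs_of_nonneg (by positivity : (0:ℝ) ≤ (n.factorial : ℝ)⁻¹), Nat.abs_cast]
      rw [Real.norm_eq_abs] at hy
      rw [hu]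
      simp only
      calc |a n| * ((n.factorial : ℝ)⁻¹ * (n * |y| ^ (n - 1)))
          ≤ 1 * ((n.factorial : ℝ)⁻¹ * (n * R ^ (n - 1))) := by
            gcongr
            exact ha n
        _ = _ := one_mul _)
    (by rw [mem_ball_zero_iff, Real.norm_eq_abs]; linarith)
    (summable_term ha x)
    (by rw [mem_ball_zero_iff, Real.norm_eq_abs]; linarith)
  have e : ∑' n : ℕ, a n * ((n.factorial : ℝ)⁻¹ * (n * x ^ (n - 1))) = PS (fun n => a (n + 1)) x := by
    have e1 : ∀ n : ℕ, a (n + 1) * (((n + 1).factorial : ℝ)⁻¹ * ((n + 1 : ℕ) * x ^ (n + 1 - 1))) =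
        a (n + 1) * ((n.factorial : ℝ)⁻¹ * x ^ n) := by
      intro n
      rw [Nat.add_sub_cancel, Nat.factorial_succ]
      push_cast
      field_simp
    have e2 : Summable (fun n : ℕ => a n * ((n.factorial : ℝ)⁻¹ * (n * x ^ (n - 1)))) := by
      rw [← summable_nat_add_iff 1]
      exact (summable_term ha' x).congr fun n => (e1 n).symm
    rw [e2.tsum_eq_zero_add]
    unfold PS
    rw [tsum_congr e1]
    simp
  rw [e] at h
  exact h

theorem analytic_PS {a : ℕ → ℝ} (ha : ∀ n, |a n| ≤ 1) (x : ℝ) : AnalyticAt ℝ (PS a) x := by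
  set c : ℕ → ℝ := fun n => a n * (n.factorial : ℝ)⁻¹ with hc
  have hr : (FormalMultilinearSeries.ofScalars ℝ c).radius = ⊤ := by
    refine FormalMultilinearSeries.radius_eq_top_of_summable_norm _ fun r => ?_
    refine Summable.of_norm_bounded (hasSum_exp_abs (r : ℝ)).summable fun n => ?_
    rw [FormalMultilinearSeries.ofScalars_norm, norm_mul, norm_norm, norm_pow, NNReal.norm_eq, hc]
    have h := term_le ha (r : ℝ) n
    simp only
    rw [abs_of_nonneg (NNReal.coe_nonneg r)] at h ⊢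
    rw [← mul_assoc, norm_mul, norm_pow, NNReal.norm_eq] at h
    exact h
  have hf := (FormalMultilinearSeries.ofScalars ℝ c).hasFPowerSeriesOnBall (by rw [hr]; exact ENNReal.zero_lt_top)
  have hs : (FormalMultilinearSeries.ofScalars ℝ c).sum = PS a := by
    funext y
    have h1 := FormalMultilinearSeries.ofScalars_sum_eq (E := ℝ) c y
    unfold FormalMultilinearSeries.ofScalarsSum at h1
    rw [h1]
    unfold PS
    refine tsum_congr fun n => ?_
    rw [hc, smul_eq_mul]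
    ring
  rw [hs, hr] at hf
  exact hf.analyticAt_of_mem (by simp)

theorem done1 : Pool.Agent.Y329.CG.S_PS1 := by
  intro a ha
  refine ⟨analytic_PS ha, PS_le ha, fun x => ?_⟩
  rw [(deriv_PS ha x).deriv]
  exact PS_le (fun n => ha (n + 1)) x

theorem done3 : Pool.Agent.Y329.CG.S_PS3 := by
  intro a b k t ha hb hb' x
  have hsa := summable_term ha x
  have hsb : Summable (fun n : ℕ => b n * ((n.factorial : ℝ)⁻¹ * x ^ n)) := by
    rw [← summable_nat_add_iff k] at hsa ⊢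
    refine hsa.congr fun n => ?_
    rw [hb' (n + k) (by omega)]
  unfold PS
  rw [← hsa.sum_add_tsum_nat_add k, ← hsb.sum_add_tsum_nat_add k]
  have h1 : ∑' n : ℕ, b (n + k) * (((n + k).factorial : ℝ)⁻¹ * x ^ (n + k)) =
      ∑' n : ℕ, a (n + k) * (((n + k).factorial : ℝ)⁻¹ * x ^ (n + k)) :=
    tsum_congr fun n => by rw [hb' (n + k) (by omega)]
  rw [h1, Finset.sum_range, Finset.sum_range]
  have h2 : ∑ j : Fin k, b j * (((j : ℕ).factorial : ℝ)⁻¹ * x ^ (j : ℕ)) =
      ∑ j : Fin k, a j * (((j : ℕ).factorial : ℝ)⁻¹ * x ^ (j : ℕ)) +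
        ∑ j : Fin k, t j * (((j : ℕ).factorial : ℝ)⁻¹ * x ^ (j : ℕ)) := by
    rw [← Finset.sum_add_distrib]
    refine Finset.sum_congr rfl fun j _ => ?_
    rw [hb j]
    ring
  rw [h2]
  ring

end Pool.Agent.Y930.CG
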